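import Pool.Agent.MWGY.StmtsA

set_option autoImplicit false

/-!
# Squad MWGY, row REH (helper2): renaming by a substitution (twin of MWGQ.REN of helper89)
-/

namespace Pool.Agent.MWGY.H2

open Pool.Agent.Helper14_MV
open Pool.Agent.Helper2_MV (RR)
open Pool.Agent.MWGN (nn Nm WC WT Tau Ns nl sg gh)
open Pool.Agent.MWGQ (pw bd kr krl Rs Gn E0 A0 P0)
open Pool.Agent.MWGX (gL gR Ex Dl)
open Pool.Agent.MWGY

/-- a function with given values on a list without repetitions -/
theorem exf : ∀ (l : List ℕ) (vs : List (List ℕ)), l.Nodup → l.length = vs.length →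
    ∃ f : ℕ → List ℕ, l.map f = vs := by
  intro l
  induction l with
  | nil =>
    intro vs _ hl
    refine ⟨fun _ => [], ?_⟩
    rw [List.map_nil]
    exact (List.length_eq_zero_iff.1 hl.symm).symm
  | cons a l ih =>
    intro vs hn hl
    rcases vs with _ | ⟨v, vs⟩
    · simp at hl
    · obtain ⟨ha, hn'⟩ := List.nodup_cons.1 hn
      obtain ⟨f, hf⟩ := ih vs hn' (by simpa using hl)
      refine ⟨Function.update f a v, ?_⟩
      rw [List.map_cons, Function.update_self]
      congr 1
      rw [← hf]
      apply List.map_congr_left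
      intro b hb
      rw [Function.update_of_ne]
      rintro rfl
      exact ha hb

theorem flatMap_congr' {α : Type} {l : List α} {f g : α → List ℕ} (h : ∀ a ∈ l, f a = g a) :
    l.flatMap f = l.flatMap g := by
  induction l with
  | nil => rfl
  | cons a l ih =>
    rw [List.flatMap_cons, List.flatMap_cons, h a List.mem_cons_self,
      ih fun b hb => h b (List.mem_cons_of_mem a hb)]

theorem pw_flatMap (k : ℕ) (u : List ℕ) (f : ℕ → List ℕ) :
    (pw k u).flatMap f = pw k (u.flatMap f) := by
  unfold pw
  induction k with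
  | zero => rfl
  | succ k ih =>
    rw [List.replicate_succ, List.flatten_cons, List.flatMap_append, ih, List.replicate_succ,
      List.flatten_cons]

theorem gL_flat (n c : ℕ) (u v w : List ℕ) (f : ℕ → List ℕ) :
    (gL n c u v w).flatMap f = gL n c (u.flatMap f) (v.flatMap f) (w.flatMap f) := by
  unfold gL
  simp only [List.flatMap_append, pw_flatMap]

theorem gR_flat (n c : ℕ) (u v w : List ℕ) (f : ℕ → List ℕ) :
    (gR n c u v w).flatMap f = gR n c (u.flatMap f) (v.flatMap f) (w.flatMap f) := by
  unfold gR
  simp only [List.flatMap_append, pw_flatMap]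

/-- row REH -/
theorem reh : RehStmt := by
  intro n β ν h τ m hτ hn hr X A B D E S L C
  obtain ⟨f, hf⟩ := exf (h :: nl ν m) (X :: A :: B :: D :: E ::
    ((List.range (m + 1)).map S ++ ((List.range (m + 1)).map L ++ (List.range m).map C))) hn
    (by simp [nl])
  unfold nl at hf
  simp only [List.map_cons, List.map_append, List.map_map, List.cons.injEq] at hf
  obtain ⟨hX, hA, hB, hD, hE, hrest⟩ := hf
  obtain ⟨hS, hrest⟩ := List.append_inj hrest (by simp)
  obtain ⟨hL, hC⟩ := List.append_inj hrest (by simp)
  have hS' : ∀ i ≤ m, f (ν.S i) = S i := fun i hi =>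
    (List.map_inj_left.1 hS) i (List.mem_range.2 (by omega))
  have hL' : ∀ i ≤ m, f (ν.L i) = L i := fun i hi =>
    (List.map_inj_left.1 hL) i (List.mem_range.2 (by omega))
  have hC' : ∀ i < m, f (ν.C i) = C i := fun i hi =>
    (List.map_inj_left.1 hC) i (List.mem_range.2 (by omega))
  have hbd : (bd n (sg ν.L) (sg ν.C) m).flatMap f = bd n L C m := by
    unfold bd
    rw [List.flatMap_assoc]
    apply flatMap_congr'
    intro i hi
    have hi' := List.mem_range.1 hi
    rw [List.flatMap_append, pw_flatMap]
    simp only [sg, List.flatMap_cons, List.flatMap_nil, List.append_nil]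
    rw [hL' i (by omega), hC' i hi']
  have htl : (τ.flatMap (fun i => sg ν.S i ++ sg ν.L i)).flatMap f =
      τ.flatMap (fun i => S i ++ L i) := by
    rw [List.flatMap_assoc]
    apply flatMap_congr'
    intro i hi
    have hi' := (hτ.2 i).1 hi
    simp only [sg, List.flatMap_append, List.flatMap_cons, List.flatMap_nil, List.append_nil]
    rw [hL' i hi', hS' i hi']
  have hk : (krl n ν τ m).flatMap f = kr n A B D E S L C τ m := by
    unfold krl kr
    simp only [List.flatMap_append, List.flatMap_singleton, hbd, htl]
    simp only [sg, List.flatMap_singleton, hA, hB, hD, hE, hL' m le_rfl]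
  have h1 := hr.sub f
  rw [List.flatMap_append, List.flatMap_append, hk, gL_flat, gR_flat, List.flatMap_singleton,
    List.flatMap_singleton, List.flatMap_singleton, hX, hA, hB] at h1
  exact h1

end Pool.Agent.MWGY.H2
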